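import Pool.Agent.N554.HKS.Def

/-!
# Squares of `w` without the letter `m = 5` (leaf HK/S1)
-/

set_option autoImplicit false

namespace Pool.Agent.N339.HKS

open Pool.Agent.N554.HKS

/-- The `s`-th letter of a block of `w` between two letters `m`. -/
def tau (y : Fin 6) (s : ℕ) : Fin 6 := if s < 12 then T y (s + 10) else T y (s - 12)

theorem fin5 : ∀ y : Fin 6, ∀ j : Fin 22, (T y j.val = 5 ↔ j.val = 9) := by decide +kernel

theorem finT : ∀ y z : Fin 6, ∀ j : Fin 9, T y j.val = T z j.val := by decide +kernel

theorem fin1 : ∀ y : Fin 6, ∀ t : Fin 21, ∀ n : Fin 11, 1 ≤ n.val → t.val + 2 * n.val ≤ 21 →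
    (∀ j : Fin 11, j.val < n.val → tau y (t.val + j.val) = tau y (t.val + j.val + n.val)) →
    ∀ z : Fin 6, (((List.range n.val).map fun j => tau y (t.val + j)).count z) % 2
      = if z.val < 4 then 1 else 0 := by decide +kernel

theorem w5 (h : WST) (k : ℕ) : w k = 5 ↔ k % 22 = 9 := by
  have h1 := h.1 (k / 22) (k % 22) (Nat.mod_lt _ (by norm_num))
  rw [Nat.div_add_mod] at h1
  rw [h1]
  exact fin5 (w (k / 22)) ⟨k % 22, Nat.mod_lt _ (by norm_num)⟩

theorem S1_of (h : WST) : S1 := by
  intro i n hs h5
  obtain ⟨hn, hs⟩ := hs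
  have h52 : ∀ j, j < 2 * n → w (i + j) ≠ 5 := by
    intro j hj
    by_cases hjn : j < n
    · exact h5 j hjn
    · have := hs (j - n) (by omega)
      rw [show i + (j - n) + n = i + j by omega] at this
      rw [← this]
      exact h5 (j - n) (by omega)
  obtain ⟨q, t, ht, hqt⟩ : ∃ q t, t < 22 ∧ i + 12 = 22 * q + t :=
    ⟨(i + 12) / 22, (i + 12) % 22, Nat.mod_lt _ (by norm_num), (Nat.div_add_mod _ _).symm⟩
  have ht21 : t ≠ 21 := by
    intro h21
    apply h5 0 hn
    rw [w5 h]
    omega
  have htn : t + 2 * n ≤ 21 := by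
    by_contra hc
    apply h52 (21 - t) (by omega)
    rw [w5 h]
    omega
  have hw : ∀ s, s ≤ 20 → t ≤ s → w (i + (s - t)) = tau (w (q - 1)) s := by
    intro s hs20 hts
    unfold tau
    by_cases h12 : s < 12
    · rw [if_pos h12]
      have := h.1 (q - 1) (s + 10) (by omega)
      rw [← this]
      congr 1
      omega
    · rw [if_neg h12]
      have := h.1 q (s - 12) (by omega)
      rw [finT (w (q - 1)) (w q) ⟨s - 12, by omega⟩]
      rw [← this]
      congr 1
      omega
  have key := fin1 (w (q - 1)) ⟨t, by omega⟩ ⟨n, by omega⟩ hn htn (by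
    intro j hj
    have hj' : j.val < n := hj
    have h1 := hw (t + j.val) (by omega) (by omega)
    have h2 := hw (t + j.val + n) (by omega) (by omega)
    show tau (w (q - 1)) (t + j.val) = tau (w (q - 1)) (t + j.val + n)
    rw [← h1, ← h2]
    have h3 := hs j.val hj'
    rw [show i + (t + j.val - t) = i + j.val by omega,
      show i + (t + j.val + n - t) = i + j.val + n by omega]
    exact h3)
  have hseg : seg w i n = (List.range n).map fun j => tau (w (q - 1)) (t + j) := by
    unfold seg
    apply List.map_congr_left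
    intro j hj
    have hj' : j < n := List.mem_range.mp hj
    have h1 := hw (t + j) (by omega) (by omega)
    rw [← h1]
    congr 1
    omega
  rw [hseg]
  funext z
  have kz : ((List.range n).map fun j => tau (w (q - 1)) (t + j)).count z % 2
      = if z.val < 4 then 1 else 0 := key z
  unfold par v0
  set c := ((List.range n).map fun j => tau (w (q - 1)) (t + j)).count z with hc
  have hcast : (c : ZMod 2) = ((c % 2 : ℕ) : ZMod 2) := by
    rw [ZMod.natCast_mod]
  rw [hcast, kz]
  fin_cases z <;> simp

end Pool.Agent.N339.HKS
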